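import Mathlib
import Pool.Agent.Helper394.Circ

open Finset Filter Topology

namespace Pool.Agent.H990R2.CT

open Pool.Agent

noncomputable section

theorem hasSum_congr1 {f g : ℕ → ℝ} {a : ℝ} (h : ∀ k, f k = g k) : HasSum f a ↔ HasSum g a := by
  rw [funext h]

section gen

variable {V : Type*} [Fintype V] [DecidableEq V]

set_option backward.isDefEq.respectTransparency false in
theorem hasSum_exp (A : Matrix V V ℝ) :
    HasSum (fun k : ℕ => ((k.factorial : ℝ)⁻¹) • A ^ k) (NormedSpace.exp A) :=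
  open scoped Matrix.Norms.Operator in NormedSpace.exp_series_hasSum_exp' (𝕂 := ℝ) A

theorem hasSum_exp_apply (A : Matrix V V ℝ) (x y : V) :
    HasSum (fun k : ℕ => ((k.factorial : ℝ)⁻¹) * (A ^ k) x y) ((NormedSpace.exp A) x y) :=
  Pi.hasSum.mp (Pi.hasSum.mp (hasSum_exp A) x) y

/-- transition matrix of the continuous-time chain with jump matrix `P` -/
def H (P : Matrix V V ℝ) (t : ℝ) : Matrix V V ℝ := NormedSpace.exp (t • (P - 1))

theorem exp_scalar (c : ℝ) : NormedSpace.exp (c • (1 : Matrix V V ℝ)) = Real.exp c • 1 := by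
  rw [← Matrix.diagonal_one, ← Matrix.diagonal_smul, Matrix.exp_diagonal, ← Matrix.diagonal_smul]
  congr 1
  ext i
  rw [Pi.coe_exp]
  simp [Real.exp_eq_exp_ℝ]

theorem H_eq (P : Matrix V V ℝ) (t : ℝ) :
    H P t = Real.exp (-t) • NormedSpace.exp (t • P) := by
  have h1 : t • (P - 1) = (-t) • (1 : Matrix V V ℝ) + t • P := by
    rw [smul_sub, neg_smul, sub_eq_neg_add]
  rw [H, h1, Matrix.exp_add_of_commute, exp_scalar]
  · rw [smul_mul_assoc, one_mul]
  · exact (Commute.one_left _).smul_left _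

theorem H_hasSum (P : Matrix V V ℝ) (t : ℝ) (x y : V) :
    HasSum (fun k : ℕ => Real.exp (-t) * (t ^ k / k.factorial) * (P ^ k) x y) (H P t x y) := by
  have h := (hasSum_exp_apply (t • P) x y).mul_left (Real.exp (-t))
  rw [H_eq, Matrix.smul_apply, smul_eq_mul]
  refine (hasSum_congr1 fun k => ?_).mpr h
  rw [smul_pow, Matrix.smul_apply, smul_eq_mul]
  ring

theorem H_mulVec_hasSum (P : Matrix V V ℝ) (t : ℝ) (f : V → ℝ) (x : V) :
    HasSum (fun k : ℕ => Real.exp (-t) * (t ^ k / k.factorial) * (P ^ k).mulVec f x)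
      ((H P t).mulVec f x) := by
  have h := hasSum_sum (s := (univ : Finset V)) fun y _ => (H_hasSum P t x y).mul_right (f y)
  refine (hasSum_congr1 fun k => ?_).mpr h
  change _ * (∑ y, (P ^ k) x y * f y) = _
  rw [Finset.mul_sum]
  refine Finset.sum_congr rfl fun y _ => ?_
  ring

theorem poisson_hasSum (t β : ℝ) :
    HasSum (fun k : ℕ => Real.exp (-t) * (t ^ k / k.factorial) * β ^ k)
      (Real.exp ((β - 1) * t)) := by
  have h := (NormedSpace.expSeries_div_hasSum_exp (𝔸 := ℝ) (β * t)).mul_left (Real.exp (-t))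
  rw [← Real.exp_eq_exp_ℝ, ← Real.exp_add] at h
  rw [show (β - 1) * t = -t + β * t by ring]
  refine (hasSum_congr1 fun k => ?_).mpr h
  rw [mul_pow]; ring

/-- Poisson mixtures of a sequence bounded below -/
theorem mix_ge {a : ℕ → ℝ} {t s c B β : ℝ} (ht : 0 ≤ t)
    (hs : HasSum (fun k : ℕ => Real.exp (-t) * (t ^ k / k.factorial) * a k) s)
    (h : ∀ k, c * (1 - B * β ^ k) ≤ a k) : c * (1 - B * Real.exp ((β - 1) * t)) ≤ s := by
  have h1 := poisson_hasSum t 1
  have h2 := poisson_hasSum t β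
  have h3 : HasSum (fun k : ℕ => Real.exp (-t) * (t ^ k / k.factorial) * (c * (1 - B * β ^ k)))
      (c * (1 - B * Real.exp ((β - 1) * t))) := by
    have h4 := (h1.sub (h2.mul_left B)).mul_left c
    rw [sub_self, zero_mul, Real.exp_zero] at h4
    refine (hasSum_congr1 fun k => ?_).mpr h4
    rw [one_pow]; ring
  refine hasSum_le (fun k => ?_) h3 hs
  exact mul_le_mul_of_nonneg_left (h k) (by positivity)

theorem H_row {P : Matrix V V ℝ} (hP : ∀ x, ∑ y, P x y = 1) (t : ℝ) (x : V) :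
    ∑ y, H P t x y = 1 := by
  have hpow : ∀ k x, ∑ y, (P ^ k) x y = 1 := by
    intro k
    induction k with
    | zero => intro x; simp [Matrix.one_apply]
    | succ k ih =>
      intro x
      rw [pow_succ']
      simp only [Matrix.mul_apply]
      rw [Finset.sum_comm]
      simp only [← Finset.mul_sum, ih, mul_one, hP]
  have h := hasSum_sum (s := (univ : Finset V)) fun y _ => H_hasSum P t x y
  have h2 := poisson_hasSum t 1
  rw [sub_self, zero_mul, Real.exp_zero] at h2
  refine h.unique ?_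
  refine (hasSum_congr1 fun k => ?_).mpr h2
  rw [← Finset.mul_sum, hpow, one_pow]

theorem H_nonneg {P : Matrix V V ℝ} (hP : ∀ x y, 0 ≤ P x y) {t : ℝ} (ht : 0 ≤ t) (x y : V) :
    0 ≤ H P t x y := by
  have hpow : ∀ k x y, 0 ≤ (P ^ k) x y := by
    intro k
    induction k with
    | zero => intro x y; rw [pow_zero, Matrix.one_apply]; split_ifs <;> norm_num
    | succ k ih =>
      intro x y
      rw [pow_succ', Matrix.mul_apply]
      exact Finset.sum_nonneg fun w _ => mul_nonneg (hP _ _) (ih _ _)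
  exact (H_hasSum P t x y).nonneg fun k => mul_nonneg (by positivity) (hpow k x y)

theorem H_nsmul (P : Matrix V V ℝ) (t : ℝ) (k : ℕ) : H P (k * t) = (H P t) ^ k := by
  rw [H, H, ← Matrix.exp_nsmul]
  congr 1
  rw [← Nat.cast_smul_eq_nsmul ℝ, smul_smul]

end gen

section cyc

variable {G : Type*} [AddCommGroup G] [Fintype G] [DecidableEq G]

theorem U_pow_translate (S : Finset G) (n : ℕ) (f : G → ℝ) (x z : G) :
    (Helper394.U S ^ n) (fun y => f (y - x)) z = (Helper394.U S ^ n) f (z - x) := by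
  induction n generalizing z with
  | zero => simp
  | succ n ih =>
    rw [Helper394.U_pow_succ_apply, Helper394.U_pow_succ_apply, Helper394.U_apply,
      Helper394.U_apply]
    congr 1
    refine Finset.sum_congr rfl fun s _ => ?_
    rw [ih]
    congr 1
    rw [add_sub_right_comm]

variable {P : Matrix G G ℝ} {S : Finset G} {T : ℕ}

theorem P_row (h : Helper394.Bad S T) (hP : ∀ f : G → ℝ, P.mulVec f = Helper394.U S f) (x : G) :
    ∑ y, P x y = 1 := by
  have h1 := congrFun (hP (fun _ => 1)) x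
  rw [Helper394.U_const S h.nonempty] at h1
  simpa [Matrix.mulVec, dotProduct] using h1

/-- far from uniform until time `T/2` -/
theorem tv_lower (h : Helper394.Bad S T) (hT : 64 ≤ T)
    (hP : ∀ f : G → ℝ, P.mulVec f = Helper394.U S f) {t : ℝ} (ht0 : 0 ≤ t) (ht : t ≤ T / 2)
    (x : G) : (1 / 2 : ℝ) < (1 / 2 : ℝ) * ∑ y, |H P t x y - 1 / (Fintype.card G : ℝ)| := by
  obtain ⟨E, hE, hlow⟩ := h.lower
  have hT' : (64 : ℝ) ≤ T := by exact_mod_cast hT
  set E' : Finset G := univ.filter fun y => y - x ∈ E with hE'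
  have hcard : E'.card = E.card := by
    refine Finset.card_bij' (fun y _ => y - x) (fun y _ => y + x) ?_ ?_ ?_ ?_
    · intro y hy; simpa [hE'] using hy
    · intro y hy; simpa [hE'] using hy
    · intro y _; simp
    · intro y _; simp
  have hind : (fun y => if y ∈ E' then (1 : ℝ) else 0) =
      fun y => (fun z => if z ∈ E then (1 : ℝ) else 0) (y - x) := by
    ext y
    simp [hE']
  have hk : ∀ k, (21 / 32 : ℝ) * (1 - (1 / 2) ^ T * 2 ^ k) ≤
      (P ^ k).mulVec (fun y => if y ∈ E' then (1 : ℝ) else 0) x := by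
    intro k
    rw [Helper394.mat_pow hP, hind, U_pow_translate S k (fun z => if z ∈ E then (1 : ℝ) else 0),
      sub_self]
    rcases le_total k T with hkT | hkT
    · have h1 := hlow k hkT
      have : (0 : ℝ) ≤ (1 / 2) ^ T * 2 ^ k := by positivity
      linarith
    · have h1 : (0 : ℝ) ≤ (Helper394.U S ^ k) (fun z => if z ∈ E then (1 : ℝ) else 0) 0 :=
        Helper394.U_pow_nonneg S k (fun z => by split_ifs <;> norm_num) 0
      have h2 : (1 : ℝ) ≤ (1 / 2) ^ T * 2 ^ k := by
        calc (1 : ℝ) = (1 / 2) ^ T * 2 ^ T := by rw [← mul_pow]; norm_num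
          _ ≤ (1 / 2) ^ T * 2 ^ k := by gcongr; norm_num
      linarith
  have h1 := mix_ge ht0 (H_mulVec_hasSum P t (fun y => if y ∈ E' then (1 : ℝ) else 0) x) hk
  have h2 : (1 / 2 : ℝ) ^ T * Real.exp ((2 - 1) * t) ≤ 1 / 100 := by
    have e1 : (1 / 2 : ℝ) ^ T = Real.exp (-(T * Real.log 2)) := by
      rw [Real.exp_neg, ← Real.log_pow, Real.exp_log (by positivity), one_div, inv_pow]
    have e2 : (1 / 100 : ℝ) = Real.exp (-Real.log 100) := by
      rw [Real.exp_neg, Real.exp_log (by norm_num)]; norm_num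
    rw [e1, ← Real.exp_add, e2]
    apply Real.exp_le_exp.mpr
    have e3 : Real.log 100 ≤ 7 * Real.log 2 := by
      rw [← Real.log_rpow (by norm_num)]
      apply Real.log_le_log (by norm_num)
      norm_num
    have e4 := Real.log_two_gt_d9
    nlinarith
  have h3 : (P_row h hP x) = (P_row h hP x) := rfl
  have h4 : (129 / 200 : ℝ) ≤ ∑ y, H P t x y * (if y ∈ E' then (1 : ℝ) else 0) := by
    have : (H P t).mulVec (fun y => if y ∈ E' then (1 : ℝ) else 0) x =
      ∑ y, H P t x y * (if y ∈ E' then (1 : ℝ) else 0) := rfl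
    rw [← this]
    linarith
  have hG : (0 : ℝ) < Fintype.card G := by exact_mod_cast Fintype.card_pos
  have hp := H_row (P_row h hP) t x
  set q : G → ℝ := fun y => H P t x y - 1 / (Fintype.card G : ℝ) with hq
  have h5 : ∑ y, q y * (2 * (if y ∈ E' then (1 : ℝ) else 0) - 1) ≤ ∑ y, |q y| := by
    apply Finset.sum_le_sum
    intro y _
    split_ifs
    · have := le_abs_self (q y); linarith
    · have := neg_abs_le (q y); linarith
  have h6 : ∑ y, q y = 0 := by
    simp only [hq]
    rw [Finset.sum_sub_distrib, hp]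
    simp only [Finset.sum_const, Finset.card_univ, nsmul_eq_mul]
    field_simp
    norm_num
  have h7 : ∑ y, q y * (2 * (if y ∈ E' then (1 : ℝ) else 0) - 1) =
      2 * (∑ y, H P t x y * (if y ∈ E' then (1 : ℝ) else 0)) -
      2 * (E'.card / Fintype.card G) := by
    have e1 : ∀ y, q y * (2 * (if y ∈ E' then (1 : ℝ) else 0) - 1) =
        2 * (H P t x y * (if y ∈ E' then (1 : ℝ) else 0)) -
        (2 / (Fintype.card G : ℝ)) * (if y ∈ E' then (1 : ℝ) else 0) - q y := by
      intro y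
      simp only [hq]
      ring
    simp only [e1]
    rw [Finset.sum_sub_distrib, Finset.sum_sub_distrib, h6, ← Finset.mul_sum, ← Finset.mul_sum]
    simp
    ring
  have h8 : (E'.card : ℝ) / Fintype.card G ≤ 1 / 8 := by
    rw [div_le_div_iff₀ hG (by norm_num), hcard]
    linarith
  change (1 / 2 : ℝ) < (1 / 2 : ℝ) * ∑ y, |q y|
  linarith

/-- minorisation from time `T/3` on -/
theorem op_minor (h : Helper394.Bad S T) (hT : 64 ≤ T)
    (hP : ∀ f : G → ℝ, P.mulVec f = Helper394.U S f) {t : ℝ} (ht : (T : ℝ) / 3 ≤ t)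
    (f : G → ℝ) (hf : ∀ x, 0 ≤ f x) (x : G) :
    (1 / 2000 : ℝ) * ((∑ y, f y) / Fintype.card G) ≤ (H P t).mulVec f x := by
  have hT' : (64 : ℝ) ≤ T := by exact_mod_cast hT
  have ht0 : 0 ≤ t := by linarith
  set mn : ℝ := (∑ y, f y) / Fintype.card G with hmn
  have hmn0 : 0 ≤ mn := div_nonneg (Finset.sum_nonneg fun _ _ => hf _) (by positivity)
  set a : ℕ := (T + 7) / 8 with ha
  have hk : ∀ k, ((1 / 1000 : ℝ) * mn) * (1 - 2 ^ a * (1 / 2) ^ k) ≤ (P ^ k).mulVec f x := by
    intro k
    rw [Helper394.mat_pow hP]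
    rcases le_or_gt a k with hak | hak
    · have h1 := h.upper k (by omega) f hf x
      have h2 : (0 : ℝ) ≤ 2 ^ a * (1 / 2) ^ k := by positivity
      have h3 : (0 : ℝ) ≤ (1 / 1000 : ℝ) * mn := by positivity
      nlinarith
    · have h1 : (0 : ℝ) ≤ (Helper394.U S ^ k) f x := Helper394.U_pow_nonneg S k hf x
      have h2 : (1 : ℝ) ≤ 2 ^ a * (1 / 2) ^ k := by
        calc (1 : ℝ) = 2 ^ k * (1 / 2) ^ k := by rw [← mul_pow]; norm_num
          _ ≤ 2 ^ a * (1 / 2) ^ k := by gcongr; norm_num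
      have h3 : (0 : ℝ) ≤ (1 / 1000 : ℝ) * mn := by positivity
      nlinarith
  have h1 := mix_ge ht0 (H_mulVec_hasSum P t f x) hk
  have h2 : (2 : ℝ) ^ a * Real.exp ((1 / 2 - 1) * t) ≤ 1 / 2 := by
    have e1 : (2 : ℝ) ^ a = Real.exp (a * Real.log 2) := by
      rw [← Real.log_pow, Real.exp_log (by positivity)]
    have e2 : (1 / 2 : ℝ) = Real.exp (-Real.log 2) := by
      rw [Real.exp_neg, Real.exp_log (by norm_num)]; norm_num
    rw [e1, ← Real.exp_add]
    conv_rhs => rw [e2]
    apply Real.exp_le_exp.mpr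
    have e4 := Real.log_two_lt_d9
    have e5 := Real.log_two_gt_d9
    have e6 : (a : ℝ) ≤ T / 8 + 7 / 8 := by
      have : 8 * a ≤ T + 7 := by omega
      have : (8 * a : ℝ) ≤ T + 7 := by exact_mod_cast this
      linarith
    nlinarith
  have h3 : (0 : ℝ) ≤ (1 / 1000 : ℝ) * mn := by positivity
  nlinarith

theorem H_minor (h : Helper394.Bad S T) (hT : 64 ≤ T)
    (hP : ∀ f : G → ℝ, P.mulVec f = Helper394.U S f) {t : ℝ} (ht : (T : ℝ) / 3 ≤ t) (x y : G) :
    (1 / 2000 : ℝ) / Fintype.card G ≤ H P t x y := by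
  have h1 := op_minor h hT hP ht (Pi.single y 1) (fun z => by
    rw [Pi.single_apply]; split_ifs <;> norm_num) x
  rw [Finset.sum_pi_single' y (1 : ℝ) univ] at h1
  simp only [Finset.mem_univ, if_true] at h1
  have h2 : (H P t).mulVec (Pi.single y 1) x = H P t x y := by simp
  rw [h2] at h1
  calc (1 / 2000 : ℝ) / Fintype.card G = (1 / 2000 : ℝ) * (1 / Fintype.card G) := by ring
    _ ≤ _ := h1

theorem tv_upper (h : Helper394.Bad S T) (hT : 64 ≤ T)
    (hP : ∀ f : G → ℝ, P.mulVec f = Helper394.U S f) {t : ℝ} (ht : (T : ℝ) / 3 ≤ t) (x : G) :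
    (1 / 2 : ℝ) * ∑ y, |H P t x y - 1 / (Fintype.card G : ℝ)| ≤ 1 - 1 / 2000 :=
  Helper394.tv_le _ (H_row (P_row h hP) t x) _ (fun y => H_minor h hT hP ht x y) (by norm_num)

theorem H_sum (h : Helper394.Bad S T) (hP : ∀ f : G → ℝ, P.mulVec f = Helper394.U S f) (t : ℝ)
    (f : G → ℝ) : ∑ x, (H P t).mulVec f x = ∑ x, f x := by
  have h1 := hasSum_sum (s := (univ : Finset G)) fun x _ => H_mulVec_hasSum P t f x
  have h2 := (poisson_hasSum t 1).mul_right (∑ x, f x)
  rw [sub_self, zero_mul, Real.exp_zero, one_mul] at h2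
  refine h1.unique ?_
  refine (hasSum_congr1 fun k => ?_).mpr h2
  rw [← Finset.mul_sum]
  simp only [Helper394.mat_pow hP]
  rw [Helper394.sum_U_pow S h.nonempty, one_pow, mul_one]

theorem H_conv (h : Helper394.Bad S T) (hT : 64 ≤ T)
    (hP : ∀ f : G → ℝ, P.mulVec f = Helper394.U S f) (ε : ℝ) (hε : 0 < ε) :
    ∃ t : ℝ, 0 ≤ t ∧ ∀ x y, |H P t x y - 1 / (Fintype.card G : ℝ)| ≤ ε := by
  obtain ⟨k, hk⟩ := exists_pow_lt_of_lt_one hε (show (1 - 1 / 2000 : ℝ) < 1 by norm_num)
  refine ⟨k * ((T : ℝ) / 3), by positivity, fun x y => ?_⟩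
  rw [H_nsmul]
  let W : Module.End ℝ (G → ℝ) := Matrix.toLin' (H P ((T : ℝ) / 3))
  have hW : ∀ f : G → ℝ, (H P ((T : ℝ) / 3)).mulVec f = W f := fun f => by
    rw [Matrix.toLin'_apply]
  rw [Helper394.mat_entry hW]
  have h1 := Helper394.doeblin W (1 / 2000)
    (fun a => by
      rw [← hW]
      ext x
      have := H_row (P_row h hP) ((T : ℝ) / 3) x
      simp only [Matrix.mulVec, dotProduct]
      rw [← Finset.sum_mul, this, one_mul])
    (fun f => by
      simp only [← hW]
      exact H_sum h hP _ f)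
    (fun f hf x => by
      rw [← hW]
      exact op_minor h hT hP le_rfl f hf x) (Pi.single y 1) 0 1
    (fun z => by rw [Pi.single_apply]; split_ifs <;> norm_num)
    (fun z => by rw [Pi.single_apply]; split_ifs <;> norm_num) k x
  rw [Finset.sum_pi_single' y (1 : ℝ) univ] at h1
  simp only [Finset.mem_univ, if_true, sub_zero, mul_one] at h1
  exact h1.trans hk.le

theorem tv_conv (h : Helper394.Bad S T) (hT : 64 ≤ T)
    (hP : ∀ f : G → ℝ, P.mulVec f = Helper394.U S f) (ε : ℝ) (hε : 0 < ε) :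
    ∃ t : ℝ, 0 ≤ t ∧ ∀ x, (1 / 2 : ℝ) * ∑ y, |H P t x y - 1 / (Fintype.card G : ℝ)| ≤ ε := by
  have hG : (0 : ℝ) < Fintype.card G := by exact_mod_cast Fintype.card_pos
  obtain ⟨t, ht0, ht⟩ := H_conv h hT hP (ε / Fintype.card G) (by positivity)
  refine ⟨t, ht0, fun x => ?_⟩
  calc (1 / 2 : ℝ) * ∑ y, |H P t x y - 1 / (Fintype.card G : ℝ)|
      ≤ (1 / 2 : ℝ) * ∑ _y : G, ε / Fintype.card G := by
        gcongr with y
        exact ht x y
    _ = ε / 2 := by
        simp only [Finset.sum_const, Finset.card_univ, nsmul_eq_mul]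
        field_simp
    _ ≤ ε := by linarith

/-- completeness of characters, complex functions -/
theorem exists_char (f : G → ℂ) (hf : f ≠ 0) :
    ∃ χ : AddChar G ℂ, ∑ x, f x * χ x ≠ 0 := by
  by_contra hcon
  push Not at hcon
  apply hf
  ext y
  have h1 : ∑ χ : AddChar G ℂ, χ (-y) * ∑ x, f x * χ x = 0 := by
    apply Finset.sum_eq_zero
    intro χ _
    rw [hcon, mul_zero]
  have h2 : ∑ χ : AddChar G ℂ, χ (-y) * ∑ x, f x * χ x =
      ∑ x, f x * ∑ χ : AddChar G ℂ, χ (x - y) := by
    simp only [Finset.mul_sum]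
    rw [Finset.sum_comm]
    refine Finset.sum_congr rfl fun x _ => Finset.sum_congr rfl fun χ _ => ?_
    rw [sub_eq_add_neg, AddChar.map_add_eq_mul]
    ring
  rw [h2] at h1
  simp only [AddChar.sum_apply_eq_ite, sub_eq_zero, mul_ite, mul_zero] at h1
  rw [Finset.sum_ite_eq' univ y] at h1
  simp only [Finset.mem_univ, if_true] at h1
  have hG : (Fintype.card G : ℂ) ≠ 0 := by exact_mod_cast Fintype.card_ne_zero
  rcases mul_eq_zero.mp h1 with h | h
  · simpa using h
  · exact absurd h hG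

/-- complex eigenvalues of the averaging operator different from one are at most 3/4 in size -/
theorem eigenC (h : Helper394.Bad S T) (f : G → ℂ) (hf : f ≠ 0) (lam : ℂ)
    (hlam : ∀ x, (∑ s ∈ S, f (x + s)) / (S.card : ℂ) = lam * f x) (h1 : lam ≠ 1) :
    ‖lam‖ ≤ 3 / 4 := by
  obtain ⟨χ, hχ⟩ := exists_char f hf
  have hS := h.nonempty
  have hSc : (0 : ℝ) < S.card := by exact_mod_cast hS.card_pos
  have hSc' : (S.card : ℂ) ≠ 0 := by exact_mod_cast hSc.ne'
  set F := ∑ x, f x * χ x with hF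
  have key : (lam * S.card) * F = (∑ s ∈ S, χ s) * F := by
    have e1 : ∀ x, lam * S.card * f x = ∑ s ∈ S, f (x + s) := by
      intro x
      have h2 := hlam x
      rw [div_eq_iff hSc'] at h2
      rw [h2]; ring
    calc (lam * S.card) * F = ∑ x, (lam * S.card * f x) * χ x := by
          rw [hF, Finset.mul_sum]
          refine Finset.sum_congr rfl fun x _ => by ring
      _ = ∑ x, ∑ s ∈ S, f (x + s) * χ x := by
          refine Finset.sum_congr rfl fun x _ => ?_
          rw [e1, Finset.sum_mul]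
      _ = ∑ s ∈ S, ∑ x, f (x + s) * χ x := Finset.sum_comm
      _ = ∑ s ∈ S, χ (-s) * F := by
          refine Finset.sum_congr rfl fun s _ => ?_
          rw [hF, Finset.mul_sum]
          rw [← Equiv.sum_comp (Equiv.subRight s) (fun x => f (x + s) * χ x)]
          refine Finset.sum_congr rfl fun x _ => ?_
          simp only [Equiv.subRight_apply, sub_add_cancel]
          rw [sub_eq_add_neg, AddChar.map_add_eq_mul]
          ring
      _ = (∑ s ∈ S, χ (-s)) * F := by rw [Finset.sum_mul]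
      _ = (∑ s ∈ S, χ s) * F := by
          congr 1
          refine Finset.sum_bij' (fun s _ => -s) (fun s _ => -s) ?_ ?_ ?_ ?_ ?_
          · exact fun s hs => h.neg s hs
          · exact fun s hs => h.neg s hs
          · intro s _; simp
          · intro s _; simp
          · intro s _; rfl
  have key2 := mul_right_cancel₀ hχ key
  have hχ1 : χ ≠ 1 := by
    intro hχ1
    rw [hχ1] at key2
    simp only [AddChar.one_apply, Finset.sum_const, nsmul_eq_mul, mul_one] at key2
    have : lam = 1 := by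
      have h3 : lam * S.card = 1 * S.card := by rw [key2, one_mul]
      exact mul_right_cancel₀ hSc' h3
    exact h1 this
  have h4 := h.char χ hχ1
  rw [← key2, norm_mul] at h4
  have h5 : ‖(S.card : ℂ)‖ = (S.card : ℝ) := by simp
  rw [h5] at h4
  exact le_of_mul_le_mul_right h4 hSc

end cyc

end

end Pool.Agent.H990R2.CT
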