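import Pool.Agent.H990R2.CTSpec

open Finset Filter Topology

namespace Pool.Agent.H990R2.CT

open Pool.Agent

noncomputable section

variable {G : Type} [AddCommGroup G] [Fintype G] [DecidableEq G]
variable {P : Matrix G G ℝ} {S : Finset G} {T : ℕ}

theorem pow_translate (hP : ∀ f : G → ℝ, P.mulVec f = Helper394.U S f) (k : ℕ) (x y : G) :
    (P ^ k) x y = (P ^ k) 0 (y - x) := by
  rw [Helper394.mat_entry hP, Helper394.mat_entry hP]
  have h := U_pow_translate S k (Pi.single (y - x) (1 : ℝ)) x x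
  rw [sub_self] at h
  rw [← h]
  have h2 : (Pi.single y (1 : ℝ) : G → ℝ) =
      fun z => (Pi.single (y - x) (1 : ℝ) : G → ℝ) (z - x) := by
    ext z
    rw [Pi.single_apply, Pi.single_apply]
    simp only [sub_left_inj]
  rw [h2]

theorem H_translate (hP : ∀ f : G → ℝ, P.mulVec f = Helper394.U S f) (t : ℝ) (x y : G) :
    H P t x y = H P t 0 (y - x) := by
  refine (H_hasSum P t x y).unique ?_
  refine (hasSum_congr1 fun k => ?_).mpr (H_hasSum P t 0 (y - x))
  rw [pow_translate hP]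

theorem tv_translate (hP : ∀ f : G → ℝ, P.mulVec f = Helper394.U S f) (t c : ℝ) (x : G) :
    ∑ y, |H P t x y - c| = ∑ y, |H P t 0 y - c| := by
  rw [← Equiv.sum_comp (Equiv.subRight x) (fun y => |H P t 0 y - c|)]
  refine Finset.sum_congr rfl fun y _ => ?_
  rw [H_translate hP]
  rfl

/-- the simple random walk matrix on the Cayley graph -/
def srw (S : Finset G) (h0 : (0 : G) ∉ S) (hn : ∀ s ∈ S, -s ∈ S) : Matrix G G ℝ :=
  fun x y => if (Helper394.cay S h0 hn).Adj x y then
    1 / ((Helper394.cay S h0 hn).degree x : ℝ) else 0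

theorem srw_mulVec (S : Finset G) (h0 : (0 : G) ∉ S) (hn : ∀ s ∈ S, -s ∈ S) (f : G → ℝ) :
    (srw S h0 hn).mulVec f = Helper394.U S f := by
  ext x
  rw [Helper394.U_apply]
  simp only [Matrix.mulVec, dotProduct, srw, Helper394.cay_degree, Helper394.cay_adj]
  have e1 : ∀ y, (if y - x ∈ S then 1 / (S.card : ℝ) else 0) * f y =
      (if y - x ∈ S then f y / (S.card : ℝ) else 0) := by
    intro y
    split_ifs <;> ring
  simp only [e1]
  rw [← Finset.sum_filter (fun y => y - x ∈ S), Finset.sum_div]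
  refine Finset.sum_bij' (fun y _ => y - x) (fun s _ => x + s) ?_ ?_ ?_ ?_ ?_
  · intro y hy; simpa using hy
  · intro s hs; simpa using hs
  · intro y _; simp
  · intro s _; simp
  · intro y _; simp

/-- the common hitting time of level `1/4` -/
def tau0 (P : Matrix G G ℝ) : ℝ :=
  sInf {t : ℝ | 0 ≤ t ∧ (1 / 2 : ℝ) * ∑ y, |H P t 0 y - 1 / (Fintype.card G : ℝ)| ≤ 1 / 4}

theorem tau0_ge (h : Helper394.Bad S T) (hT : 64 ≤ T)
    (hP : ∀ f : G → ℝ, P.mulVec f = Helper394.U S f) : (T : ℝ) / 2 ≤ tau0 P := by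
  apply le_csInf
  · obtain ⟨t, ht0, ht⟩ := tv_conv h hT hP (1 / 4) (by norm_num)
    exact ⟨t, ht0, ht 0⟩
  · rintro t ⟨ht0, ht⟩
    by_contra hcon
    push Not at hcon
    have := tv_lower h hT hP ht0 hcon.le 0
    linarith

end

end Pool.Agent.H990R2.CT
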