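import Pool.Agent.H990R2.CT

open Finset Filter Topology

namespace Pool.Agent.H990R2.CT

open Pool.Agent

noncomputable section

variable {G : Type*} [AddCommGroup G] [Fintype G] [DecidableEq G]
variable {P : Matrix G G ℝ} {S : Finset G} {T : ℕ}

theorem P_entry (hP : ∀ f : G → ℝ, P.mulVec f = Helper394.U S f) (x y : G) :
    P x y = if y - x ∈ S then 1 / (S.card : ℝ) else 0 := by
  have h := congrFun (hP (Pi.single y 1)) x
  rw [Helper394.U_apply] at h
  have h1 : P.mulVec (Pi.single y 1) x = P x y := by simp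
  rw [h1] at h
  rw [h]
  have h2 : ∑ s ∈ S, (Pi.single y (1 : ℝ) : G → ℝ) (x + s) = if y - x ∈ S then 1 else 0 := by
    have : ∀ s, (Pi.single y (1 : ℝ) : G → ℝ) (x + s) = if s = y - x then 1 else 0 := by
      intro s
      rw [Pi.single_apply]
      congr 1
      rw [eq_sub_iff_add_eq', eq_iff_iff]
    simp only [this]
    rw [Finset.sum_ite_eq' S]
  rw [h2]
  split_ifs <;> simp

theorem P_diag (h : Helper394.Bad S T) (hP : ∀ f : G → ℝ, P.mulVec f = Helper394.U S f) (x : G) :
    P x x = 0 := by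
  rw [P_entry hP, sub_self, if_neg h.zero]

theorem P_symm (h : Helper394.Bad S T) (hP : ∀ f : G → ℝ, P.mulVec f = Helper394.U S f)
    (x y : G) : P x y = P y x := by
  rw [P_entry hP, P_entry hP]
  have h2 : (y - x ∈ S) ↔ (x - y ∈ S) := by
    constructor
    · intro h3; have := h.neg _ h3; rwa [neg_sub] at this
    · intro h3; have := h.neg _ h3; rwa [neg_sub] at this
  simp only [h2]

theorem specR (h : Helper394.Bad S T) (hP : ∀ f : G → ℝ, P.mulVec f = Helper394.U S f)
    (r : ℝ) (hr : r ∈ spectrum ℝ (-(P - 1))) (h0 : r ≠ 0) : 1 / 4 ≤ r := by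
  rw [← Matrix.spectrum_toLin', ← Module.End.hasEigenvalue_iff_mem_spectrum] at hr
  obtain ⟨f, hf⟩ := hr.exists_hasEigenvector
  have hf0 := hf.2
  have hf1 := hf.apply_eq_smul
  rw [Matrix.toLin'_apply, Matrix.neg_mulVec, Matrix.sub_mulVec, Matrix.one_mulVec, hP] at hf1
  have h2 : ∀ x, Helper394.U S f x = (1 - r) * f x := by
    intro x
    have := congrFun hf1 x
    simp only [Pi.neg_apply, Pi.sub_apply, Pi.smul_apply, smul_eq_mul] at this
    linarith
  have h3 := h.eigen f hf0 (1 - r) h2 (by intro h4; apply h0; linarith)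
  rw [abs_le] at h3
  linarith

theorem specR_nonempty (h : Helper394.Bad S T) (hP : ∀ f : G → ℝ, P.mulVec f = Helper394.U S f) :
    ∃ r ∈ spectrum ℝ (-(P - 1)), r ≠ 0 := by
  have hH : (-(P - 1)).IsHermitian := by
    rw [Matrix.IsHermitian]
    ext x y
    simp only [Matrix.conjTranspose_apply, Matrix.neg_apply, Matrix.sub_apply, star_trivial]
    rw [P_symm h hP y x]
    simp [Matrix.one_apply, eq_comm]
  have hne : -(P - 1) ≠ 0 := by
    intro h0
    have h1 := congrFun (congrFun h0 0) 0
    simp only [Matrix.neg_apply, Matrix.sub_apply, Matrix.zero_apply, Matrix.one_apply_eq] at h1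
    rw [P_diag h hP] at h1
    norm_num at h1
  have h1 : hH.eigenvalues ≠ 0 := fun h2 => hne (hH.eigenvalues_eq_zero_iff.mp h2)
  obtain ⟨i, hi⟩ := Function.ne_iff.mp h1
  exact ⟨_, hH.eigenvalues_mem_spectrum_real i, hi⟩

theorem specC (h : Helper394.Bad S T) (hP : ∀ f : G → ℝ, P.mulVec f = Helper394.U S f)
    (z : ℂ) (hz : z ∈ spectrum ℂ (-((P - 1).map Complex.ofReal))) (h0 : z ≠ 0) :
    1 / 4 ≤ z.re := by
  rw [← Matrix.spectrum_toLin', ← Module.End.hasEigenvalue_iff_mem_spectrum] at hz
  obtain ⟨f, hf⟩ := hz.exists_hasEigenvector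
  have hf0 := hf.2
  have hf1 := hf.apply_eq_smul
  rw [Matrix.toLin'_apply, Matrix.neg_mulVec] at hf1
  have hmap : (P - 1).map Complex.ofReal = P.map Complex.ofReal - 1 := by
    ext x y
    simp only [Matrix.map_apply, Matrix.sub_apply, Matrix.one_apply]
    split_ifs <;> simp
  rw [hmap, Matrix.sub_mulVec, Matrix.one_mulVec] at hf1
  have h2 : ∀ x, (∑ s ∈ S, f (x + s)) / (S.card : ℂ) = (1 - z) * f x := by
    intro x
    have h3 := congrFun hf1 x
    simp only [Pi.neg_apply, Pi.sub_apply, Pi.smul_apply, smul_eq_mul] at h3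
    have h4 : (P.map Complex.ofReal).mulVec f x = (∑ s ∈ S, f (x + s)) / (S.card : ℂ) := by
      simp only [Matrix.mulVec, dotProduct, Matrix.map_apply]
      have e1 : ∀ y, ((P x y : ℝ) : ℂ) * f y = if y - x ∈ S then f y / (S.card : ℂ) else 0 := by
        intro y
        rw [P_entry hP]
        split_ifs
        · push_cast; ring
        · simp
      simp only [e1]
      rw [← Finset.sum_filter, Finset.sum_div]
      refine Finset.sum_bij' (fun y _ => y - x) (fun s _ => x + s) ?_ ?_ ?_ ?_ ?_
      · intro y hy; simpa using hy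
      · intro s hs; simpa using hs
      · intro y _; simp
      · intro s _; simp
      · intro y _; simp
    rw [← h4]
    linear_combination -h3
  have h3 := eigenC h f hf0 (1 - z) h2 (by
    intro h4
    apply h0
    linear_combination -h4)
  have h4 := (Complex.abs_re_le_norm (1 - z)).trans h3
  rw [Complex.sub_re, Complex.one_re, abs_le] at h4
  linarith

theorem specC_nonempty (h : Helper394.Bad S T) (hP : ∀ f : G → ℝ, P.mulVec f = Helper394.U S f) :
    ∃ z ∈ spectrum ℂ (-((P - 1).map Complex.ofReal)), z ≠ 0 := by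
  by_contra hcon
  push Not at hcon
  have h1 := Matrix.trace_eq_sum_roots_charpoly (-((P - 1).map Complex.ofReal))
  have h2 : (-((P - 1).map Complex.ofReal)).charpoly.roots.sum = 0 := by
    apply Multiset.sum_eq_zero
    intro z hz
    apply hcon
    exact Matrix.mem_spectrum_of_isRoot_charpoly (Polynomial.isRoot_of_mem_roots hz)
  rw [h2, Matrix.trace] at h1
  simp only [Matrix.diag_apply, Matrix.neg_apply, Matrix.map_apply, Matrix.sub_apply,
    P_diag h hP, Matrix.one_apply_eq] at h1
  simp at h1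

end

end Pool.Agent.H990R2.CT
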