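import Mathlib
import Pool.Agent.Helper394.Circ

open Finset Filter Topology

namespace Pool.Agent.H990R2.CutCyc

open Pool.Agent

noncomputable section

variable {n : ℕ} [NeZero n]

/-- law of the convolution walk started from `0` -/
def law (μ : ZMod n → ℝ) : ℕ → ZMod n → ℝ
  | 0 => fun x => if x = 0 then 1 else 0
  | t + 1 => fun x => ∑ y, law μ t y * μ (x - y)

/-- the lazy measure -/
def lazyMeas (S : Finset (ZMod n)) : ZMod n → ℝ := fun x =>
  (if x = 0 then 1 / 2 else 0) + (if x ∈ S then 1 / (2 * (S.card : ℝ)) else 0)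

def convMat (μ : ZMod n → ℝ) : Matrix (ZMod n) (ZMod n) ℝ := fun x y => μ (y - x)

theorem law_eq (μ : ZMod n → ℝ) (t : ℕ) (x : ZMod n) : law μ t x = (convMat μ ^ t) 0 x := by
  induction t generalizing x with
  | zero => simp [law, Matrix.one_apply, eq_comm]
  | succ t ih =>
    rw [pow_succ, Matrix.mul_apply, law]
    refine Finset.sum_congr rfl fun y _ => ?_
    rw [ih]
    rfl

theorem convMat_mulVec (S : Finset (ZMod n)) (f : ZMod n → ℝ) :
    (convMat (lazyMeas S)).mulVec f = Helper394.V S f := by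
  ext x
  rw [Helper394.V_apply, Helper394.U_apply]
  simp only [Matrix.mulVec, dotProduct, convMat, lazyMeas, add_mul, ite_mul, zero_mul,
    sub_eq_zero]
  rw [Finset.sum_add_distrib]
  congr 1
  · rw [Finset.sum_ite_eq' univ x]
    simp
    ring
  · rw [← Finset.sum_filter]
    rw [div_div, Finset.sum_div]
    refine Finset.sum_bij' (fun y _ => y - x) (fun s _ => x + s) ?_ ?_ ?_ ?_ ?_
    · intro y hy; simpa using hy
    · intro s hs; simpa using hs
    · intro y _; simp
    · intro s _; simp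
    · intro y _
      simp only [add_sub_cancel]
      ring

theorem lazyMeas_nonneg (S : Finset (ZMod n)) (x : ZMod n) : 0 ≤ lazyMeas S x := by
  rw [lazyMeas]; split_ifs <;> positivity

theorem lazyMeas_sum {S : Finset (ZMod n)} (hS : S.Nonempty) : ∑ x, lazyMeas S x = 1 := by
  have hc : (0 : ℝ) < S.card := by exact_mod_cast hS.card_pos
  simp only [lazyMeas]
  rw [Finset.sum_add_distrib, ← Finset.sum_filter (fun x => x ∈ S)]
  simp
  field_simp
  norm_num

theorem lazyMeas_symm {S : Finset (ZMod n)} (hS : ∀ s ∈ S, -s ∈ S) (x : ZMod n) :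
    lazyMeas S (-x) = lazyMeas S x := by
  have h1 : (-x ∈ S) ↔ (x ∈ S) := ⟨fun h => by simpa using hS _ h, hS x⟩
  simp only [lazyMeas, neg_eq_zero, h1]

variable {S : Finset (ZMod n)} {T : ℕ}

/-- the character `x ↦ exp(2πi jx/n)` -/
def chr (j : ZMod n) : AddChar (ZMod n) ℂ := (ZMod.stdAddChar (N := n)).mulShift j

theorem chr_apply (j x : ZMod n) : chr j x = Complex.exp (2 * Real.pi * Complex.I *
    (j.val * x.val) / n) := by
  rw [chr, AddChar.mulShift_apply, ← ZMod.natCast_zmod_val j, ← ZMod.natCast_zmod_val x]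
  rw [← Nat.cast_mul]
  have := ZMod.stdAddChar_coe (N := n) ((j.val * x.val : ℕ) : ℤ)
  rw [Int.cast_natCast] at this
  rw [this]
  push_cast
  simp

theorem chr_ne {j : ZMod n} (hj : j ≠ 0) : chr j ≠ 1 := by
  intro h
  apply hj
  have := (ZMod.isPrimitive_stdAddChar n) 
  by_contra hne
  exact this hne h

/-- Fourier transform of the lazy measure -/
theorem hat_eq (hT : Helper394.Bad S T) (j : ZMod n) :
    ∑ x, (lazyMeas S x : ℂ) * chr j x = 1 / 2 + (∑ s ∈ S, chr j s) / (2 * S.card) := by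
  have e : ∀ x, (lazyMeas S x : ℂ) * chr j x = (if x = 0 then (1 / 2) * chr j x else 0) +
      (if x ∈ S then chr j x / (2 * S.card) else 0) := by
    intro x
    rw [lazyMeas]
    split_ifs <;> push_cast <;> ring
  simp only [e]
  rw [Finset.sum_add_distrib, ← Finset.sum_filter (fun x => x ∈ S)]
  simp
  rw [Finset.sum_div]

theorem hat_norm (hT : Helper394.Bad S T) {j : ZMod n} (hj : j ≠ 0) :
    ‖∑ x, (lazyMeas S x : ℂ) * chr j x‖ ≤ 7 / 8 := by
  rw [hat_eq hT]
  have hc : (0 : ℝ) < S.card := by exact_mod_cast hT.nonempty.card_pos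
  have h := hT.char (chr j) (chr_ne hj)
  refine (norm_add_le _ _).trans ?_
  rw [norm_div, norm_div, norm_mul]
  simp only [norm_one, Complex.norm_ofNat, Complex.norm_natCast]
  have : ‖∑ s ∈ S, chr j s‖ / (2 * S.card) ≤ 3 / 8 := by
    rw [div_le_iff₀ (by positivity)]
    linarith
  linarith

/-- total variation distance to uniform of a law on `ZMod n` -/
theorem tv_lower (hT : Helper394.Bad S T) (t : ℕ) (ht : t ≤ T) :
    (17 / 32 : ℝ) ≤ (1 / 2 : ℝ) * ∑ x, |law (lazyMeas S) t x - 1 / (n : ℝ)| := by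
  have h := Helper394.fact_lower hT (convMat_mulVec S) t ht
  rw [ZMod.card] at h
  simpa only [law_eq] using h

theorem tv_upper (hT : Helper394.Bad S T) (m : ℕ) (hm : T ≤ 8 * (m + 1)) :
    (1 / 2 : ℝ) * ∑ x, |law (lazyMeas S) (2 * m + 1) x - 1 / (n : ℝ)| ≤ 1 - 1 / 2000 := by
  have h := Helper394.fact_upper hT (convMat_mulVec S) m hm 0
  rw [ZMod.card] at h
  simpa only [law_eq] using h

theorem tv_conv (hT : Helper394.Bad S T) (ε : ℝ) (hε : 0 < ε) :
    ∃ t, (1 / 2 : ℝ) * ∑ x, |law (lazyMeas S) t x - 1 / (n : ℝ)| ≤ ε := by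
  have hG : (0 : ℝ) < Fintype.card (ZMod n) := by exact_mod_cast Fintype.card_pos
  obtain ⟨t, ht⟩ := Helper394.fact_conv hT (convMat_mulVec S) (ε / Fintype.card (ZMod n))
    (by positivity)
  refine ⟨t, ?_⟩
  have h := fun y => ht 0 y
  rw [ZMod.card] at h
  simp only [← law_eq] at h
  rw [ZMod.card] at hG
  calc (1 / 2 : ℝ) * ∑ y, |law (lazyMeas S) t y - 1 / (n : ℝ)|
      ≤ (1 / 2 : ℝ) * ∑ _y : ZMod n, ε / (n : ℝ) := by
        gcongr with y
        exact h y
    _ = ε / 2 := by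
        simp only [Finset.sum_const, Finset.card_univ, nsmul_eq_mul, ZMod.card]
        field_simp
    _ ≤ ε := by linarith

theorem lazyMeas_zero (S : Finset (ZMod n)) : 0 < lazyMeas S 0 := by
  rw [lazyMeas, if_pos rfl]
  split_ifs <;> positivity

theorem lazyMeas_ne {S : Finset (ZMod n)} {s : ZMod n} (hs : s ∈ S) : lazyMeas S s ≠ 0 := by
  have hc : (0 : ℝ) < S.card := by exact_mod_cast Finset.card_pos.mpr ⟨s, hs⟩
  rw [lazyMeas, if_pos hs]
  have : 0 < (if s = 0 then (1 / 2 : ℝ) else 0) + 1 / (2 * (S.card : ℝ)) := by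
    split_ifs <;> positivity
  exact this.ne'

theorem top_of_sub (hT : Helper394.Bad S T) (H : AddSubgroup (ZMod n)) (h : ∀ s ∈ S, s ∈ H) :
    H = ⊤ := by
  rw [eq_top_iff]
  intro x _
  refine hT.closed (H : Set (ZMod n)) 0 H.zero_mem ?_ x
  intro y hy s hs
  exact H.add_mem hy (h s hs)

end

end Pool.Agent.H990R2.CutCyc
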