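import Mathlib

open Finset Filter Topology

namespace Pool.Agent.H990R2.NW

noncomputable section

section gen

variable {V : Type*} [Fintype V]

/-- weighted degree -/
def dg (G : SimpleGraph V) [DecidableRel G.Adj] (W : V → ℝ) (u : V) : ℝ :=
  ∑ w, if G.Adj u w then W w else 0

/-- stationary law -/
def st (G : SimpleGraph V) [DecidableRel G.Adj] (W : V → ℝ) (y : V) : ℝ :=
  W y * dg G W y / ∑ z, W z * dg G W z

theorem tv_eq (p q : V → ℝ) (hp : ∑ y, p y = ∑ y, q y) :
    (1 / 2 : ℝ) * ∑ y, |p y - q y| = ∑ y, max (q y - p y) 0 := by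
  have h : ∀ y, |p y - q y| = 2 * max (q y - p y) 0 + (p y - q y) := by
    intro y
    rcases le_total (q y) (p y) with h | h
    · rw [abs_of_nonneg (by linarith), max_eq_right (by linarith)]; ring
    · rw [abs_of_nonpos (by linarith), max_eq_left (by linarith)]; ring
  simp only [h]
  rw [Finset.sum_add_distrib, Finset.sum_sub_distrib, hp, ← Finset.mul_sum]
  ring

theorem tv_ge (p q : V → ℝ) (hp : ∑ y, p y = ∑ y, q y) (S : Finset V) :
    ∑ y ∈ S, q y - ∑ y ∈ S, p y ≤ (1 / 2 : ℝ) * ∑ y, |p y - q y| := by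
  rw [tv_eq p q hp, ← Finset.sum_sub_distrib]
  calc ∑ y ∈ S, (q y - p y) ≤ ∑ y ∈ S, max (q y - p y) 0 :=
        Finset.sum_le_sum fun y _ => le_max_left _ _
    _ ≤ ∑ y, max (q y - p y) 0 :=
        Finset.sum_le_sum_of_subset_of_nonneg (Finset.subset_univ _) fun y _ _ => le_max_right _ _

variable [DecidableEq V]

/-- lazy node-weighted walk -/
def PW (G : SimpleGraph V) [DecidableRel G.Adj] (W : V → ℝ) : Matrix V V ℝ :=
  Matrix.of (fun u v => (if u = v then (1 / 2 : ℝ) else 0) +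
    (if G.Adj u v then W v / (2 * dg G W u) else 0))

/-- distance at time `t` from `x` -/
def dist1 (G : SimpleGraph V) [DecidableRel G.Adj] (W : V → ℝ) (t : ℕ) (x : V) : ℝ :=
  (1 / 2 : ℝ) * ∑ y, |(PW G W ^ t) x y - st G W y|

variable (G : SimpleGraph V) [DecidableRel G.Adj] (a : V → ℝ) (d δ : V → ℕ)

/-- normalised degree -/
def nd (s : ℝ) (u : V) : ℝ := ∑ w, if G.Adj u w then a w * s ^ (d w - δ u) else 0

/-- the rescaled transition matrix, which makes sense at `s = 0` -/
def R (s : ℝ) : Matrix V V ℝ :=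
  Matrix.of (fun u v => (if u = v then (1 / 2 : ℝ) else 0) +
    (if G.Adj u v then a v * s ^ (d v - δ u) / (2 * nd G a d δ s u) else 0))

variable {G a d δ}

theorem nd_pos (ha : ∀ v, 0 < a v) (h2 : ∀ u, ∃ v, G.Adj u v ∧ d v = δ u) {s : ℝ} (hs : 0 ≤ s)
    (u : V) : 0 < nd G a d δ s u := by
  obtain ⟨v, hv, hd⟩ := h2 u
  rw [nd]
  apply Finset.sum_pos'
  · intro w _
    split_ifs
    · exact mul_nonneg (ha w).le (pow_nonneg hs _)
    · exact le_rfl
  · refine ⟨v, Finset.mem_univ _, ?_⟩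
    rw [if_pos hv, hd, Nat.sub_self, pow_zero, mul_one]
    exact ha v

theorem PW_eq_R (h1 : ∀ u v, G.Adj u v → δ u ≤ d v) {s : ℝ} (hs : 0 < s) :
    PW G (fun v => a v * s ^ (d v)) = R G a d δ s := by
  have key : ∀ u v, G.Adj u v → a v * s ^ (d v) = s ^ (δ u) * (a v * s ^ (d v - δ u)) := by
    intro u v huv
    have : s ^ (d v) = s ^ (δ u) * s ^ (d v - δ u) := by
      rw [← pow_add, Nat.add_sub_cancel' (h1 u v huv)]
    rw [this]; ring
  have hdg : ∀ u, dg G (fun v => a v * s ^ (d v)) u = s ^ (δ u) * nd G a d δ s u := by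
    intro u
    rw [dg, nd, Finset.mul_sum]
    refine Finset.sum_congr rfl fun w _ => ?_
    split_ifs with h
    · exact key u w h
    · simp
  ext u v
  rw [PW, R, Matrix.of_apply, Matrix.of_apply]
  congr 1
  split_ifs with h
  · rw [hdg, key u v h]
    have hs' : s ^ (δ u) ≠ 0 := (pow_pos hs _).ne'
    rw [show 2 * (s ^ δ u * nd G a d δ s u) = s ^ δ u * (2 * nd G a d δ s u) by ring]
    rw [mul_div_mul_left _ _ hs']
  · rfl

theorem R_tendsto (ha : ∀ v, 0 < a v) (h2 : ∀ u, ∃ v, G.Adj u v ∧ d v = δ u) :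
    Tendsto (fun s => R G a d δ s) (𝓝[>] 0) (𝓝 (R G a d δ 0)) := by
  have hnd : ∀ u, Continuous (fun s => nd G a d δ s u) := by
    intro u
    unfold nd
    refine continuous_finsetSum _ fun w _ => ?_
    split_ifs
    · fun_prop
    · exact continuous_const
  have key : ∀ u v, ContinuousAt (fun s => R G a d δ s u v) 0 := by
    intro u v
    simp only [R, Matrix.of_apply]
    refine continuousAt_const.add ?_
    split_ifs
    · refine ContinuousAt.div (by fun_prop) ?_ ?_
      · exact continuousAt_const.mul (hnd u).continuousAt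
      · have := nd_pos (G := G) (δ := δ) ha h2 (le_refl (0 : ℝ)) u
        positivity
    · exact continuousAt_const
  refine tendsto_pi_nhds.mpr fun u => tendsto_pi_nhds.mpr fun v => ?_
  exact (key u v).tendsto.mono_left nhdsWithin_le_nhds

theorem R_row (ha : ∀ v, 0 < a v) (h2 : ∀ u, ∃ v, G.Adj u v ∧ d v = δ u) {s : ℝ} (hs : 0 ≤ s)
    (u : V) : ∑ v, R G a d δ s u v = 1 := by
  simp only [R, Matrix.of_apply]
  rw [Finset.sum_add_distrib]
  have hn := nd_pos (G := G) (δ := δ) ha h2 hs u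
  have e1 : ∑ v, (if u = v then (1 / 2 : ℝ) else 0) = 1 / 2 := by simp
  have e2 : ∑ v, (if G.Adj u v then a v * s ^ (d v - δ u) / (2 * nd G a d δ s u) else 0) =
      nd G a d δ s u / (2 * nd G a d δ s u) := by
    conv_rhs => rw [nd, Finset.sum_div]
    refine Finset.sum_congr rfl fun w _ => ?_
    split_ifs
    · rfl
    · simp
  rw [e1, e2]
  field_simp
  norm_num

theorem R_nonneg (ha : ∀ v, 0 < a v) (h2 : ∀ u, ∃ v, G.Adj u v ∧ d v = δ u) {s : ℝ} (hs : 0 ≤ s)
    (u v : V) : 0 ≤ R G a d δ s u v := by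
  have hn := nd_pos (G := G) (δ := δ) ha h2 hs u
  have hv := ha v
  simp only [R, Matrix.of_apply]
  split_ifs <;> positivity

theorem R_mulVec (f : V → ℝ) (u : V) :
    (R G a d δ 0).mulVec f u = (1 / 2 : ℝ) * f u +
      (1 / 2 : ℝ) * ((∑ v, if G.Adj u v ∧ d v ≤ δ u then a v * f v else 0) /
        (∑ v, if G.Adj u v ∧ d v ≤ δ u then a v else 0)) := by
  have h0 : ∀ v, (0 : ℝ) ^ (d v - δ u) = if d v ≤ δ u then 1 else 0 := by
    intro v
    split_ifs with h
    · rw [Nat.sub_eq_zero_of_le h, pow_zero]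
    · apply zero_pow; omega
  have hn : nd G a d δ 0 u = ∑ v, if G.Adj u v ∧ d v ≤ δ u then a v else 0 := by
    rw [nd]
    refine Finset.sum_congr rfl fun w _ => ?_
    rw [h0]
    by_cases hA : G.Adj u w <;> by_cases hB : d w ≤ δ u <;> simp [hA, hB]
  rw [Matrix.mulVec, dotProduct]
  simp only [R, Matrix.of_apply, add_mul]
  rw [Finset.sum_add_distrib, ← hn]
  congr 1
  · simp
  · rw [Finset.sum_div, Finset.mul_sum]
    refine Finset.sum_congr rfl fun w _ => ?_
    rw [h0]
    by_cases hA : G.Adj u w <;> by_cases hB : d w ≤ δ u <;> simp [hA, hB]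
    field_simp

theorem pow_row {P : Matrix V V ℝ} (h : ∀ u, ∑ v, P u v = 1) (t : ℕ) (u : V) :
    ∑ v, (P ^ t) u v = 1 := by
  induction t generalizing u with
  | zero => simp [Matrix.one_apply]
  | succ t ih =>
    rw [pow_succ']
    simp only [Matrix.mul_apply]
    rw [Finset.sum_comm]
    simp only [← Finset.mul_sum, ih, mul_one, h]

theorem pow_nonneg' {P : Matrix V V ℝ} (h : ∀ u v, 0 ≤ P u v) (t : ℕ) (u v : V) :
    0 ≤ (P ^ t) u v := by
  induction t generalizing u with
  | zero => rw [pow_zero, Matrix.one_apply]; split_ifs <;> norm_num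
  | succ t ih =>
    rw [pow_succ', Matrix.mul_apply]
    exact Finset.sum_nonneg fun w _ => mul_nonneg (h _ _) (ih _)

theorem mulVec_mono {P : Matrix V V ℝ} (h : ∀ u v, 0 ≤ P u v) {f g : V → ℝ} (hfg : ∀ v, f v ≤ g v)
    (u : V) : P.mulVec f u ≤ P.mulVec g u := by
  rw [Matrix.mulVec, Matrix.mulVec, dotProduct, dotProduct]
  exact Finset.sum_le_sum fun v _ => mul_le_mul_of_nonneg_left (hfg v) (h _ _)

end gen

end

end Pool.Agent.H990R2.NW
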