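import Pool.Agent.H990R2.NW

open Finset Filter Topology

namespace Pool.Agent.H990R2.NW

noncomputable section

/-- vertices: a grid of levels and run lengths, plus two heavy vertices -/
abbrev VV (L k : ℕ) := (Fin (L + 1) × Fin (k + 1)) ⊕ Bool

/-- upward edges -/
def up (L k : ℕ) : VV L k → VV L k → Prop
  | .inl p, .inl q => q.1.val = p.1.val + 1 ∧ p.2.val < k ∧ (q.2.val = p.2.val + 1 ∨ q.2.val = 0)
  | .inl p, .inr b => b = false ∧ (p.2.val = k ∨ p.1.val = L)
  | .inr b, .inr b' => b = false ∧ b' = true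
  | .inr _, .inl _ => False

/-- the graph -/
def GG (L k : ℕ) : SimpleGraph (VV L k) where
  Adj u v := up L k u v ∨ up L k v u
  symm := ⟨fun _ _ h => h.symm⟩
  loopless := ⟨fun u h => by
    rcases u with p | b
    · simp only [up, or_self] at h
      omega
    · simp only [up, or_self] at h
      rcases h with ⟨h1, h2⟩
      rw [h1] at h2
      exact absurd h2 (by decide)⟩

instance (L k : ℕ) : DecidableRel (GG L k).Adj := Classical.decRel _

/-- depth -/
def dep {L k : ℕ} : VV L k → ℕ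
  | .inl p => L + 1 - p.1.val
  | .inr _ => 0

/-- minimal depth of a neighbour -/
def del {L k : ℕ} : VV L k → ℕ
  | .inl p => if p.2.val < k ∧ p.1.val < L then L - p.1.val else 0
  | .inr _ => 0

/-- bounded factor -/
def wt {L k : ℕ} (c : ℝ) : VV L k → ℝ
  | .inl p => if p.2.val = 0 then c else 1
  | .inr _ => 1

variable {L k : ℕ}

theorem adj_ll (p q : Fin (L + 1) × Fin (k + 1)) : (GG L k).Adj (.inl p) (.inl q) ↔
    (q.1.val = p.1.val + 1 ∧ p.2.val < k ∧ (q.2.val = p.2.val + 1 ∨ q.2.val = 0)) ∨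
    (p.1.val = q.1.val + 1 ∧ q.2.val < k ∧ (p.2.val = q.2.val + 1 ∨ p.2.val = 0)) := Iff.rfl

theorem adj_lr (p : Fin (L + 1) × Fin (k + 1)) (b : Bool) : (GG L k).Adj (.inl p) (.inr b) ↔
    b = false ∧ (p.2.val = k ∨ p.1.val = L) := by
  change (_ ∨ False) ↔ _
  rw [or_false]
  rfl

theorem adj_rl (p : Fin (L + 1) × Fin (k + 1)) (b : Bool) : (GG L k).Adj (.inr b) (.inl p) ↔
    b = false ∧ (p.2.val = k ∨ p.1.val = L) := by
  rw [SimpleGraph.adj_comm, adj_lr]

theorem adj_rr (b b' : Bool) : (GG L k).Adj (.inr b) (.inr b') ↔ b ≠ b' := by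
  change ((b = false ∧ b' = true) ∨ (b' = false ∧ b = true)) ↔ _
  cases b <;> cases b' <;> simp

theorem h1 (u v : VV L k) (h : (GG L k).Adj u v) : del u ≤ dep v := by
  rcases u with p | b
  · rcases v with q | b'
    · rw [adj_ll] at h
      simp only [del, dep]
      split_ifs <;> omega
    · rw [adj_lr] at h
      simp only [del, dep]
      rw [if_neg (by omega)]
  · simp [del]

theorem h2 (u : VV L k) : ∃ v, (GG L k).Adj u v ∧ dep v = del u := by
  rcases u with p | b
  · by_cases h : p.2.val < k ∧ p.1.val < L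
    · refine ⟨.inl (⟨p.1.val + 1, by omega⟩, 0), ?_, ?_⟩
      · rw [adj_ll]; left; simp; omega
      · simp only [dep, del]
        rw [if_pos h]
        simp
    · refine ⟨.inr false, ?_, ?_⟩
      · rw [adj_lr]
        have h1 := p.1.isLt
        have h2 := p.2.isLt
        refine ⟨rfl, ?_⟩
        omega
      · simp only [dep, del]
        rw [if_neg h]
  · cases b
    · exact ⟨.inr true, by rw [adj_rr]; simp, rfl⟩
    · exact ⟨.inr false, by rw [adj_rr]; simp, rfl⟩

theorem wt_pos {c : ℝ} (hc : 0 < c) (v : VV L k) : 0 < wt c v := by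
  rcases v with p | b
  · simp only [wt]; split_ifs <;> linarith
  · simp [wt]

theorem sum_mid (F : VV L k → ℝ) (p : Fin (L + 1) × Fin (k + 1)) (hj : p.2.val < k)
    (hl : p.1.val < L) :
    (∑ v, if (GG L k).Adj (.inl p) v ∧ dep v ≤ del (.inl p) then F v else 0) =
      F (.inl (⟨p.1.val + 1, by omega⟩, ⟨p.2.val + 1, by omega⟩)) +
      F (.inl (⟨p.1.val + 1, by omega⟩, 0)) := by
  classical
  rw [← Finset.sum_filter]
  have : (univ.filter fun v => (GG L k).Adj (.inl p) v ∧ dep v ≤ del (.inl p)) =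
      {(.inl (⟨p.1.val + 1, by omega⟩, ⟨p.2.val + 1, by omega⟩) : VV L k),
       .inl (⟨p.1.val + 1, by omega⟩, 0)} := by
    ext v
    simp only [mem_filter, mem_univ, true_and, mem_insert, mem_singleton]
    rcases v with ⟨q1, q2⟩ | b
    · rw [adj_ll]
      simp only [del, dep, Sum.inl.injEq, Prod.mk.injEq, Fin.ext_iff, Fin.val_zero]
      rw [if_pos ⟨hj, hl⟩]
      omega
    · rw [adj_lr]
      constructor
      · rintro ⟨⟨_, h⟩, _⟩; omega
      · rintro (h | h) <;> simp at h
  rw [this, Finset.sum_pair]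
  intro h
  rw [Sum.inl.injEq, Prod.mk.injEq] at h
  have h2 := congrArg Fin.val h.2
  simp only [Fin.val_zero] at h2
  omega

theorem sum_top (F : VV L k → ℝ) (p : Fin (L + 1) × Fin (k + 1))
    (h : p.2.val = k ∨ p.1.val = L) :
    (∑ v, if (GG L k).Adj (.inl p) v ∧ dep v ≤ del (.inl p) then F v else 0) =
      F (.inr false) := by
  classical
  rw [← Finset.sum_filter]
  have : (univ.filter fun v => (GG L k).Adj (.inl p) v ∧ dep v ≤ del (.inl p)) =
      {(.inr false : VV L k)} := by
    ext v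
    simp only [mem_filter, mem_univ, true_and, mem_singleton]
    rcases v with ⟨q1, q2⟩ | b
    · simp only [del, dep]
      have := q1.isLt
      rw [if_neg (by omega)]
      constructor
      · rintro ⟨_, h⟩; omega
      · intro h; simp at h
    · rw [adj_lr]
      simp only [del, dep]
      simp [h]
  rw [this, Finset.sum_singleton]

theorem sum_r (F : VV L k → ℝ) (b : Bool) :
    (∑ v, if (GG L k).Adj (.inr b) v ∧ dep v ≤ del (.inr b : VV L k) then F v else 0) =
      F (.inr (!b)) := by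
  classical
  rw [← Finset.sum_filter]
  have : (univ.filter fun v => (GG L k).Adj (.inr b) v ∧ dep v ≤ del (.inr b : VV L k)) =
      {(.inr (!b) : VV L k)} := by
    ext v
    simp only [mem_filter, mem_univ, true_and, mem_singleton]
    rcases v with ⟨q1, q2⟩ | b'
    · simp only [del, dep]
      have := q1.isLt
      constructor
      · rintro ⟨_, h⟩; omega
      · intro h; simp at h
    · rw [adj_rr]
      simp only [del, dep]
      cases b <;> cases b' <;> simp
  rw [this, Finset.sum_singleton]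

/-- limiting transition matrix -/
def P0 (L k : ℕ) (c : ℝ) : Matrix (VV L k) (VV L k) ℝ := R (GG L k) (wt c) dep del 0

theorem step_mid {c : ℝ} (f : VV L k → ℝ) (p : Fin (L + 1) × Fin (k + 1))
    (hj : p.2.val < k) (hl : p.1.val < L) :
    (P0 L k c).mulVec f (.inl p) = (1 / 2 : ℝ) * f (.inl p) + (1 / 2 : ℝ) *
      ((f (.inl (⟨p.1.val + 1, by omega⟩, ⟨p.2.val + 1, by omega⟩)) +
      c * f (.inl (⟨p.1.val + 1, by omega⟩, 0))) / (1 + c)) := by
  rw [P0, R_mulVec, sum_mid (fun v => wt c v * f v) p hj hl, sum_mid (fun v => wt c v) p hj hl]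
  simp [wt]

theorem step_top {c : ℝ} (f : VV L k → ℝ) (p : Fin (L + 1) × Fin (k + 1))
    (h : p.2.val = k ∨ p.1.val = L) :
    (P0 L k c).mulVec f (.inl p) = (1 / 2 : ℝ) * f (.inl p) + (1 / 2 : ℝ) * f (.inr false) := by
  rw [P0, R_mulVec, sum_top (fun v => wt c v * f v) p h, sum_top (fun v => wt c v) p h]
  simp [wt]

theorem step_r {c : ℝ} (f : VV L k → ℝ) (b : Bool) :
    (P0 L k c).mulVec f (.inr b) = (1 / 2 : ℝ) * f (.inr b) + (1 / 2 : ℝ) * f (.inr (!b)) := by
  rw [P0, R_mulVec, sum_r (fun v => wt c v * f v) b, sum_r (fun v => wt c v) b]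
  simp [wt]

theorem P0_row {c : ℝ} (hc : 0 < c) (u : VV L k) : ∑ v, P0 L k c u v = 1 :=
  R_row (wt_pos hc) h2 le_rfl u

theorem P0_nonneg {c : ℝ} (hc : 0 < c) (u v : VV L k) : 0 ≤ P0 L k c u v :=
  R_nonneg (wt_pos hc) h2 le_rfl u v

/-- limiting stationary law -/
def pi0 : VV L k → ℝ
  | .inl _ => 0
  | .inr _ => 1 / 2

theorem st_zero {c : ℝ} : (∑ z : VV L k, (wt c z * (0 : ℝ) ^ dep z) *
    dg (GG L k) (fun v => wt c v * (0 : ℝ) ^ dep v) z) = 2 ∧
    ∀ y, st (GG L k) (fun v => wt c v * (0 : ℝ) ^ dep v) y = pi0 y := by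
  have hW : ∀ v : VV L k, wt c v * (0 : ℝ) ^ dep v = match v with
      | .inl _ => 0
      | .inr _ => 1 := by
    intro v
    rcases v with p | b
    · have : dep (.inl p : VV L k) ≠ 0 := by
        simp only [dep]; have := p.1.isLt; omega
      simp [zero_pow this]
    · simp [wt, dep]
  have hd : ∀ b, dg (GG L k) (fun v => wt c v * (0 : ℝ) ^ dep v) (.inr b) = 1 := by
    intro b
    rw [dg]
    simp only [hW]
    rw [Fintype.sum_sum_type]
    simp only [ite_self, Finset.sum_const_zero, zero_add, adj_rr]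
    cases b <;> simp
  have hs : (∑ z : VV L k, (wt c z * (0 : ℝ) ^ dep z) *
    dg (GG L k) (fun v => wt c v * (0 : ℝ) ^ dep v) z) = 2 := by
    rw [Fintype.sum_sum_type]
    simp only [hW, zero_mul, Finset.sum_const_zero, zero_add, one_mul]
    simp only [← hW, hd]
    simp
  refine ⟨hs, fun y => ?_⟩
  rw [st, hs]
  rcases y with p | b
  · simp only [hW, pi0]; simp
  · rw [hd]
    have h3 := hW (.inr b)
    simp only at h3
    simp only [pi0]
    rw [h3]; norm_num

end

end Pool.Agent.H990R2.NW
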