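import Pool.Agent.H990R2.NWGraph

open Finset Filter Topology

namespace Pool.Agent.H990R2.NW

noncomputable section

variable {L k : ℕ}

theorem mulVec_pow_succ {V : Type*} [Fintype V] [DecidableEq V] (P : Matrix V V ℝ) (t : ℕ)
    (f : V → ℝ) : (P ^ (t + 1)).mulVec f = P.mulVec ((P ^ t).mulVec f) := by
  rw [pow_succ', Matrix.mulVec_mulVec]

theorem mulVec_pow_succ' {V : Type*} [Fintype V] [DecidableEq V] (P : Matrix V V ℝ) (t : ℕ)
    (f : V → ℝ) : (P ^ (t + 1)).mulVec f = (P ^ t).mulVec (P.mulVec f) := by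
  rw [pow_succ, Matrix.mulVec_mulVec]

/-- indicator of not being absorbed -/
def vv : VV L k → ℝ
  | .inl _ => 1
  | .inr _ => 0

/-- Lyapunov function -/
def gg : VV L k → ℝ
  | .inl p => 2 ^ (k + 1) + 1 - 2 ^ (p.2.val + 1)
  | .inr _ => 0

theorem P_gg (u : VV L k) : (P0 L k 1).mulVec gg u ≤ gg u - (1 / 2 : ℝ) * vv u := by
  rcases u with p | b
  · by_cases h : p.2.val < k ∧ p.1.val < L
    · rw [step_mid gg p h.1 h.2]
      simp only [gg, vv, Fin.val_zero]
      rw [pow_succ (2 : ℝ) (p.2.val + 1)]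
      linarith
    · have h1 := p.1.isLt
      have h2 := p.2.isLt
      rw [step_top gg p (by omega)]
      simp only [gg, vv]
      have : (2 : ℝ) ^ (p.2.val + 1) ≤ 2 ^ (k + 1) :=
        pow_le_pow_right₀ (by norm_num) (by omega)
      linarith
  · rw [step_r]
    simp [gg, vv]

theorem P_vv {c : ℝ} (hc : 0 < c) (u : VV L k) : (P0 L k c).mulVec vv u ≤ vv u := by
  rcases u with p | b
  · by_cases h : p.2.val < k ∧ p.1.val < L
    · rw [step_mid vv p h.1 h.2]
      simp only [vv]
      have : (1 + c * 1) / (1 + c) = 1 := by field_simp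
      rw [this]; norm_num
    · have h1 := p.1.isLt
      have h2 := p.2.isLt
      rw [step_top vv p (by omega)]
      simp only [vv]; norm_num
  · rw [step_r]
    simp [vv]

theorem gg_le (u : VV L k) : gg u ≤ 2 ^ (k + 1) := by
  rcases u with p | b
  · simp only [gg]
    have : (1 : ℝ) ≤ 2 ^ (p.2.val + 1) := one_le_pow₀ (by norm_num)
    linarith
  · simp only [gg]; positivity

theorem sum_le (t : ℕ) (u : VV L k) :
    ∑ s ∈ range t, ((P0 L k 1) ^ s).mulVec vv u ≤ 2 * gg u := by
  induction t generalizing u with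
  | zero =>
    simp only [range_zero, sum_empty]
    rcases u with p | b
    · simp only [gg]
      have : (2 : ℝ) ^ (p.2.val + 1) ≤ 2 ^ (k + 1) :=
        pow_le_pow_right₀ (by norm_num) (by omega)
      linarith
    · simp [gg]
  | succ t ih =>
    rw [Finset.sum_range_succ', pow_zero, Matrix.one_mulVec]
    have e1 : ∑ s ∈ range t, ((P0 L k 1) ^ (s + 1)).mulVec vv u =
        (P0 L k 1).mulVec (fun w => ∑ s ∈ range t, ((P0 L k 1) ^ s).mulVec vv w) u := by
      simp only [mulVec_pow_succ]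
      simp only [Matrix.mulVec, dotProduct]
      rw [Finset.sum_comm]
      refine Finset.sum_congr rfl fun w _ => ?_
      rw [Finset.mul_sum]
    rw [e1]
    have e2 := mulVec_mono (P := P0 L k 1) (P0_nonneg one_pos) ih u
    have e3 : (P0 L k 1).mulVec (fun w => 2 * gg w) u = 2 * (P0 L k 1).mulVec gg u := by
      simp only [Matrix.mulVec, dotProduct, Finset.mul_sum]
      refine Finset.sum_congr rfl fun w _ => ?_
      ring
    have e4 := P_gg u
    linarith

theorem u_anti {c : ℝ} (hc : 0 < c) (s : ℕ) (u : VV L k) :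
    ((P0 L k c) ^ (s + 1)).mulVec vv u ≤ ((P0 L k c) ^ s).mulVec vv u := by
  rw [mulVec_pow_succ']
  exact mulVec_mono (pow_nonneg' (P0_nonneg hc) s) (fun v => P_vv hc v) u

theorem u_anti' {c : ℝ} (hc : 0 < c) {s t : ℕ} (h : s ≤ t) (u : VV L k) :
    ((P0 L k c) ^ t).mulVec vv u ≤ ((P0 L k c) ^ s).mulVec vv u := by
  induction t, h using Nat.le_induction with
  | base => exact le_rfl
  | succ t _ ih => exact (u_anti hc t u).trans ih

theorem u_le (t : ℕ) (u : VV L k) :
    (t : ℝ) * ((P0 L k 1) ^ t).mulVec vv u ≤ 2 * 2 ^ (k + 1) := by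
  have h1 := sum_le t u
  have h2 : ∑ s ∈ range t, ((P0 L k 1) ^ t).mulVec vv u ≤
      ∑ s ∈ range t, ((P0 L k 1) ^ s).mulVec vv u :=
    Finset.sum_le_sum fun s hs => u_anti' one_pos (Finset.mem_range.mp hs).le u
  rw [Finset.sum_const, card_range, nsmul_eq_mul] at h2
  have h3 := gg_le u
  linarith

theorem sum_pi0 : ∑ y : VV L k, pi0 y = 1 := by
  rw [Fintype.sum_sum_type]
  simp [pi0]

/-- limiting distance -/
def D0 (L k : ℕ) (c : ℝ) (t : ℕ) (x : VV L k) : ℝ :=
  (1 / 2 : ℝ) * ∑ y, |((P0 L k c) ^ t) x y - pi0 y|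

theorem D0_le (t : ℕ) (x : VV L k) : D0 L k 1 (t + 1) x ≤ ((P0 L k 1) ^ t).mulVec vv x := by
  have hrow := pow_row (P := P0 L k 1) (P0_row one_pos) (t + 1) x
  rw [D0, tv_eq _ _ (by rw [hrow, sum_pi0])]
  rw [Fintype.sum_sum_type]
  have e0 : ∑ p : Fin (L + 1) × Fin (k + 1),
      max (pi0 (.inl p : VV L k) - ((P0 L k 1) ^ (t + 1)) x (.inl p)) 0 = 0 := by
    refine Finset.sum_eq_zero fun p _ => ?_
    apply max_eq_right
    simp only [pi0]
    have := pow_nonneg' (P := P0 L k 1) (P0_nonneg one_pos) (t + 1) x (.inl p)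
    linarith
  rw [e0, zero_add]
  have e1 : ∀ b : Bool, max (pi0 (.inr b : VV L k) - ((P0 L k 1) ^ (t + 1)) x (.inr b)) 0 ≤
      (1 / 2 : ℝ) * ((P0 L k 1) ^ t).mulVec vv x := by
    intro b
    have hv : 0 ≤ ((P0 L k 1) ^ t).mulVec vv x := by
      rw [Matrix.mulVec, dotProduct]
      refine Finset.sum_nonneg fun w _ => mul_nonneg (pow_nonneg' (P0_nonneg one_pos) t x w) ?_
      rcases w with _ | _ <;> simp [vv]
    refine max_le ?_ (by linarith)
    have h1 : ((P0 L k 1) ^ (t + 1)) x (.inr b) =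
        ((P0 L k 1) ^ t).mulVec ((P0 L k 1).mulVec (fun w => if w = .inr b then 1 else 0)) x := by
      rw [Matrix.mulVec_mulVec, ← pow_succ]
      simp [Matrix.mulVec, dotProduct]
    have h2 : ∀ w : VV L k, (1 / 2 : ℝ) * (1 - vv w) ≤
        (P0 L k 1).mulVec (fun w => if w = .inr b then 1 else 0) w := by
      intro w
      rcases w with p | b'
      · simp only [vv]
        have : 0 ≤ (P0 L k 1).mulVec (fun w => if w = .inr b then 1 else 0) (.inl p) := by
          rw [Matrix.mulVec, dotProduct]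
          refine Finset.sum_nonneg fun w _ => mul_nonneg (P0_nonneg one_pos _ _) ?_
          split_ifs <;> norm_num
        linarith
      · rw [step_r]
        simp only [vv]
        cases b <;> cases b' <;> simp
    have h3 := mulVec_mono (P := (P0 L k 1) ^ t) (pow_nonneg' (P0_nonneg one_pos) t) h2 x
    have h4 : ((P0 L k 1) ^ t).mulVec (fun w => (1 / 2 : ℝ) * (1 - vv w)) x =
        (1 / 2 : ℝ) * (1 - ((P0 L k 1) ^ t).mulVec vv x) := by
      have hr := pow_row (P := P0 L k 1) (P0_row one_pos) t x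
      simp only [Matrix.mulVec, dotProduct]
      have e5 : ∑ w, ((P0 L k 1) ^ t) x w * ((1 / 2 : ℝ) * (1 - vv w)) =
          (1 / 2 : ℝ) * ((∑ w, ((P0 L k 1) ^ t) x w) - ∑ w, ((P0 L k 1) ^ t) x w * vv w) := by
        rw [← Finset.sum_sub_distrib, Finset.mul_sum]
        refine Finset.sum_congr rfl fun w _ => ?_
        ring
      rw [e5, hr]
    rw [h1]
    simp only [pi0]
    linarith
  calc ∑ b : Bool, max (pi0 (.inr b : VV L k) - ((P0 L k 1) ^ (t + 1)) x (.inr b)) 0
      ≤ ∑ _b : Bool, (1 / 2 : ℝ) * ((P0 L k 1) ^ t).mulVec vv x :=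
        Finset.sum_le_sum fun b _ => e1 b
    _ = _ := by simp

/-- indicator of being absorbed -/
def ww : VV L k → ℝ
  | .inl _ => 0
  | .inr _ => 1

theorem ww_le {c : ℝ} (hc : 0 < c) (t : ℕ) (x : VV L k) : ((P0 L k c) ^ t).mulVec ww x ≤ 1 := by
  have := pow_row (P := P0 L k c) (P0_row hc) t x
  rw [← this, Matrix.mulVec, dotProduct]
  refine Finset.sum_le_sum fun w _ => ?_
  have h := pow_nonneg' (P := P0 L k c) (P0_nonneg hc) t x w
  have h2 : ww w ≤ 1 := by rcases w with _ | _ <;> simp [ww]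
  nlinarith

theorem slow (t : ℕ) (p : Fin (L + 1) × Fin (k + 1)) (h : p.1.val + t ≤ L) :
    ((P0 L k 3) ^ t).mulVec ww (.inl p) ≤ (4 ^ p.2.val + t) / 4 ^ k := by
  induction t generalizing p with
  | zero =>
    rw [pow_zero, Matrix.one_mulVec]
    simp only [ww]; positivity
  | succ t ih =>
    by_cases hj : p.2.val < k
    · rw [mulVec_pow_succ, step_mid _ p hj (by omega)]
      have i1 := ih p (by omega)
      have i2 := ih (⟨p.1.val + 1, by omega⟩, ⟨p.2.val + 1, by omega⟩) (by simp; omega)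
      have i3 := ih (⟨p.1.val + 1, by omega⟩, 0) (by simp; omega)
      simp only [Fin.val_zero, pow_zero] at i2 i3
      have e : ((4 : ℝ) ^ p.2.val + ((t + 1 : ℕ) : ℝ)) / 4 ^ k =
          (1 / 2) * ((4 ^ p.2.val + (t : ℝ)) / 4 ^ k) + (1 / 2) *
            (((4 ^ (p.2.val + 1) + (t : ℝ)) / 4 ^ k + 3 * ((1 + (t : ℝ)) / 4 ^ k)) / (1 + 3)) +
            (5 / 8) / 4 ^ k := by
        push_cast
        rw [pow_succ]
        field_simp
        ring
      rw [e]
      have : (0 : ℝ) ≤ (5 / 8) / 4 ^ k := by positivity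
      linarith
    · have h2 := p.2.isLt
      have hk : p.2.val = k := by omega
      refine (ww_le (by norm_num) _ _).trans ?_
      rw [hk, le_div_iff₀ (by positivity)]
      have : (0 : ℝ) ≤ ((t + 1 : ℕ) : ℝ) := by positivity
      linarith

theorem D0_ge (t : ℕ) (x : VV L k) : 1 - ((P0 L k 3) ^ t).mulVec ww x ≤ D0 L k 3 t x := by
  have hrow := pow_row (P := P0 L k 3) (P0_row (by norm_num)) t x
  have h := tv_ge (fun y => ((P0 L k 3) ^ t) x y) pi0 (by rw [hrow, sum_pi0])
    (univ.filter fun v : VV L k => ww v = 1)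
  refine le_trans (le_of_eq ?_) h
  rw [Finset.sum_filter, Finset.sum_filter, Matrix.mulVec, dotProduct, Fintype.sum_sum_type,
    Fintype.sum_sum_type, Fintype.sum_sum_type]
  simp [ww, pi0]

/-- weights -/
def WW (L k : ℕ) (c s : ℝ) : VV L k → ℝ := fun v => wt c v * s ^ dep v

theorem WW_pos {c s : ℝ} (hc : 0 < c) (hs : 0 < s) (v : VV L k) : 0 < WW L k c s v :=
  mul_pos (wt_pos hc v) (pow_pos hs _)

theorem st_tendsto {c : ℝ} (y : VV L k) :
    Tendsto (fun s => st (GG L k) (WW L k c s) y) (𝓝[>] 0) (𝓝 (pi0 y)) := by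
  obtain ⟨h2, h3⟩ := st_zero (L := L) (k := k) (c := c)
  rw [← h3 y]
  have hW : ∀ v : VV L k, Continuous (fun s : ℝ => WW L k c s v) := by
    intro v
    unfold WW
    fun_prop
  have hd : ∀ v : VV L k, Continuous (fun s : ℝ => dg (GG L k) (WW L k c s) v) := by
    intro v
    unfold dg
    refine continuous_finsetSum _ fun w _ => ?_
    split_ifs
    · exact hW w
    · exact continuous_const
  have : ContinuousAt (fun s : ℝ => st (GG L k) (WW L k c s) y) 0 := by
    unfold st
    refine ContinuousAt.div ?_ ?_ ?_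
    · exact ((hW y).mul (hd y)).continuousAt
    · exact (continuous_finsetSum _ fun z _ => (hW z).mul (hd z)).continuousAt
    · have e : (∑ z : VV L k, WW L k c 0 z * dg (GG L k) (WW L k c 0) z) = 2 := h2
      rw [e]; norm_num
  exact this.tendsto.mono_left nhdsWithin_le_nhds

theorem dist_tendsto {c : ℝ} (hc : 0 < c) (t : ℕ) (x : VV L k) :
    Tendsto (fun s => dist1 (GG L k) (WW L k c s) t x) (𝓝[>] 0) (𝓝 (D0 L k c t x)) := by
  unfold dist1 D0
  refine Tendsto.const_mul _ (tendsto_finsetSum _ fun y _ => ?_)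
  refine Tendsto.abs (Tendsto.sub ?_ (st_tendsto y))
  have h := (R_tendsto (G := GG L k) (d := dep) (δ := del) (wt_pos hc) h2).pow t
  have h' : Tendsto (fun s => (R (GG L k) (wt c) dep del s ^ t) x y) (𝓝[>] 0)
      (𝓝 ((P0 L k c ^ t) x y)) := (tendsto_pi_nhds.mp ((tendsto_pi_nhds.mp h) x)) y
  refine h'.congr' ?_
  filter_upwards [self_mem_nhdsWithin] with s hs
  rw [← PW_eq_R h1 hs]
  rfl

theorem conn : (GG L k).Connected := by
  rw [SimpleGraph.connected_iff_exists_forall_reachable]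
  refine ⟨.inr false, fun w => ?_⟩
  have key : ∀ n : ℕ, ∀ p : Fin (L + 1) × Fin (k + 1), L - p.1.val = n →
      (GG L k).Reachable (.inr false) (.inl p) := by
    intro n
    induction n with
    | zero =>
      intro p hp
      have h1 := p.1.isLt
      have : (GG L k).Adj (.inr false) (.inl p) := by
        rw [adj_rl]; exact ⟨rfl, Or.inr (by omega)⟩
      exact this.reachable
    | succ n ih =>
      intro p hp
      by_cases hj : p.2.val < k
      · have h2 := ih (⟨p.1.val + 1, by omega⟩, 0) (by simp; omega)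
        have h3 : (GG L k).Adj (.inl (⟨p.1.val + 1, by omega⟩, 0)) (.inl p) := by
          rw [adj_ll]; right; simp; omega
        exact h2.trans h3.reachable
      · have h2 := p.2.isLt
        have : (GG L k).Adj (.inr false) (.inl p) := by
          rw [adj_rl]; exact ⟨rfl, Or.inl (by omega)⟩
        exact this.reachable
  rcases w with p | b
  · exact key _ p rfl
  · cases b
    · exact SimpleGraph.Reachable.refl _
    · have : (GG L k).Adj (.inr false) (.inr true) := by rw [adj_rr]; simp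
      exact this.reachable

theorem exists_bad (K : ℝ) (hK : 0 < K) : ∃ (L k : ℕ) (s : ℝ) (t : ℕ) (x : VV L k), 0 < s ∧
    (∀ y, dist1 (GG L k) (WW L k 1 s) t y ≤ 1 / 4) ∧
    1 / 4 < dist1 (GG L k) (WW L k 3 s) ⌈K * (t : ℝ)⌉₊ x := by
  obtain ⟨k, hk⟩ := pow_unbounded_of_one_lt (44 * K + 4) (one_lt_two : (1 : ℝ) < 2)
  set t : ℕ := 2 ^ (k + 5) + 1 with ht
  set L : ℕ := ⌈K * (t : ℝ)⌉₊ with hL
  have hA : ∀ y : VV L k, D0 L k 1 t y < 1 / 4 := by
    intro y
    refine lt_of_le_of_lt (D0_le (2 ^ (k + 5)) y) ?_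
    have h := u_le (L := L) (k := k) (2 ^ (k + 5)) y
    push_cast at h
    have e : (2 : ℝ) ^ (k + 5) = 16 * 2 ^ (k + 1) := by rw [pow_add, pow_add]; ring
    rw [e] at h
    have h5 : (0 : ℝ) < 2 ^ (k + 1) := by positivity
    by_contra hcon
    push Not at hcon
    nlinarith
  have hB : 1 / 4 < D0 L k 3 L (.inl (0, 0)) := by
    refine lt_of_lt_of_le ?_ (D0_ge L _)
    have h := slow (L := L) (k := k) L (0, 0) (by simp)
    simp only [Fin.val_zero, pow_zero] at h
    have h3 : (1 + (L : ℝ)) / 4 ^ k < 3 / 4 := by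
      rw [div_lt_iff₀ (by positivity)]
      have h4 : (L : ℝ) < K * t + 1 := Nat.ceil_lt_add_one (by positivity)
      have h5 : (t : ℝ) = 32 * 2 ^ k + 1 := by
        rw [ht]; push_cast; rw [pow_add]; ring
      have h6 : (4 : ℝ) ^ k = 2 ^ k * 2 ^ k := by
        rw [← mul_pow]; norm_num
      have h7 : (1 : ℝ) ≤ 2 ^ k := one_le_pow₀ (by norm_num)
      rw [h5] at h4
      rw [h6]
      nlinarith
    linarith
  have e1 : ∀ᶠ s in 𝓝[>] (0 : ℝ), ∀ y, dist1 (GG L k) (WW L k 1 s) t y < 1 / 4 := by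
    rw [Filter.eventually_all]
    intro y
    exact (dist_tendsto one_pos t y).eventually_lt_const (hA y)
  have e2 : ∀ᶠ s in 𝓝[>] (0 : ℝ), 1 / 4 < dist1 (GG L k) (WW L k 3 s) L (.inl (0, 0)) :=
    (dist_tendsto (by norm_num) L _).eventually_const_lt hB
  obtain ⟨s, ⟨hs1, hs2⟩, hs3⟩ := ((e1.and e2).and self_mem_nhdsWithin).exists
  exact ⟨L, k, s, t, .inl (0, 0), hs3, fun y => (hs1 y).le, hs2⟩

/-! ### transport to `Fin n` -/

section transport

variable {V : Type*} [Fintype V] [DecidableEq V] {n : ℕ} (e : V ≃ Fin n) (G : SimpleGraph V)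
  [DecidableRel G.Adj] [DecidableRel (G.comap e.symm).Adj] (W : V → ℝ)

theorem dg_map (u : Fin n) : dg (G.comap e.symm) (W ∘ e.symm) u = dg G W (e.symm u) := by
  rw [dg, dg, ← Equiv.sum_comp e.symm (fun w => if G.Adj (e.symm u) w then W w else 0)]
  refine Finset.sum_congr rfl fun w _ => ?_
  simp only [SimpleGraph.comap_adj, Function.comp_apply]

theorem st_map (u : Fin n) : st (G.comap e.symm) (W ∘ e.symm) u = st G W (e.symm u) := by
  rw [st, st, dg_map, ← Equiv.sum_comp e.symm (fun z => W z * dg G W z)]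
  simp only [dg_map, Function.comp_apply]

theorem PW_map (t : ℕ) (u v : Fin n) : ((PW (G.comap e.symm) (W ∘ e.symm)) ^ t) u v =
    ((PW G W) ^ t) (e.symm u) (e.symm v) := by
  induction t generalizing u with
  | zero => simp [Matrix.one_apply]
  | succ t ih =>
    rw [pow_succ', pow_succ', Matrix.mul_apply, Matrix.mul_apply,
      ← Equiv.sum_comp e.symm (fun z => PW G W (e.symm u) z * ((PW G W) ^ t) z (e.symm v))]
    refine Finset.sum_congr rfl fun w _ => ?_
    rw [ih]
    congr 1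
    simp only [PW, Matrix.of_apply, dg_map, SimpleGraph.comap_adj, Function.comp_apply,
      e.symm.injective.eq_iff]

theorem dist_map (t : ℕ) (u : Fin n) : dist1 (G.comap e.symm) (W ∘ e.symm) t u =
    dist1 G W t (e.symm u) := by
  rw [dist1, dist1, ← Equiv.sum_comp e.symm (fun y => |((PW G W) ^ t) (e.symm u) y - st G W y|)]
  simp only [PW_map, st_map]

end transport

end

end Pool.Agent.H990R2.NW
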